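import Pool.Agent.Helper88_SO.Tools

/-!
# Module OPP
-/

namespace Pool.Agent.SO.H76

open Pool.Agent.SO

/-- crossing segments have a common interior point -/
theorem cross_pt {p q r s : Pt} (h : Cross p q r s) : ∃ a b c e : ℝ, 0 < a ∧ 0 < b ∧ 0 < c ∧ 0 < e ∧
    a + b = 1 ∧ c + e = 1 ∧ a • p + b • q = c • r + e • s := by
  obtain ⟨h1, h2⟩ := h
  -- weights proportional to the orientations
  have key : ∀ {x y : ℝ}, x * y < 0 → 0 < y / (y - x) ∧ 0 < -x / (y - x) ∧
      y / (y - x) + -x / (y - x) = 1 := by
    intro x y hxy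
    rcases mul_neg_iff.1 hxy with ⟨hx, hy⟩ | ⟨hx, hy⟩
    · have hd : y - x < 0 := by linarith
      refine ⟨div_pos_of_neg_of_neg hy hd, div_pos_of_neg_of_neg (by linarith) hd, ?_⟩
      have := hd.ne
      field_simp
      ring
    · have hd : 0 < y - x := by linarith
      refine ⟨div_pos hy hd, div_pos (by linarith) hd, ?_⟩
      have := hd.ne'
      field_simp
      ring
  have hne : ∀ {x y : ℝ}, x * y < 0 → y - x ≠ 0 := by
    intro x y hxy h0
    have : x = y := by linarith
    rw [this] at hxy
    nlinarith [mul_self_nonneg y]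
  obtain ⟨a1, a2, a3⟩ := key h2
  obtain ⟨b1, b2, b3⟩ := key h1
  refine ⟨_, _, _, _, a1, a2, b1, b2, a3, b3, ?_⟩
  have n1 := hne h2
  have n2 := hne h1
  have e1 : ori r s q - ori r s p = -(ori p q s - ori p q r) := by
    have := ori_four p q r s
    have e2 : ori p r s = ori r s p := by unfold ori; ring
    have e3 : ori q r s = ori r s q := by unfold ori; ring
    linarith
  ext
  · simp only [Prod.fst_add, Prod.smul_fst, smul_eq_mul]
    field_simp
    unfold ori
    ring
  · simp only [Prod.snd_add, Prod.smul_snd, smul_eq_mul]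
    field_simp
    unfold ori
    ring

theorem opp_core {d a b a' b' e : Pt} (hc : Cross b b' a' a) (h1 : 0 < ori a b' b * ori a b' d)
    (h2 : 0 < ori b a' a * ori b a' d) (ea : 0 < ori d e a) (eb : 0 < ori d e b)
    (ea' : ori d e a' < 0) (eb' : ori d e b' < 0) (hs : 0 < ori b b' a)
    (n1 : ori d a b ≠ 0) (n2 : ori d a' b' ≠ 0) : 0 < ori d a b ∧ 0 < ori d a' b' := by
  have hc' := hc
  obtain ⟨c1, c2⟩ := hc'
  obtain ⟨x, y, z, w, hx, hy, hz, hw, hxy, hzw, hP⟩ := cross_pt hc
  -- signs
  have s1 : ori b b' a' < 0 := by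
    by_contra h
    push Not at h
    have := mul_nonneg h hs.le
    linarith
  have s2 : 0 < ori a' a b := by
    have h4 := ori_four a' a b b'
    have e2 : ori a' b b' = ori b b' a' := by unfold ori; ring
    have e3 : ori a b b' = ori b b' a := by unfold ori; ring
    by_contra h
    push Not at h
    have h5 : ori a' a b' < 0 := by linarith
    have := mul_nonneg_of_nonpos_of_nonpos h h5.le
    linarith
  have t1 : ori d a b' < 0 := by
    have e2 : ori a b' b = -ori b b' a := by unfold ori; ring
    have e3 : ori a b' d = ori d a b' := by unfold ori; ring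
    rw [e2, e3] at h1
    by_contra h
    push Not at h
    have := mul_nonneg hs.le h
    linarith
  have t2 : 0 < ori d b a' := by
    have e2 : ori b a' a = ori a' a b := by unfold ori; ring
    have e3 : ori b a' d = ori d b a' := by unfold ori; ring
    rw [e2, e3] at h2
    exact (pos_iff_pos_of_mul_pos h2).1 s2
  have sw : ∀ p q : Pt, ori d q p = -ori d p q := fun p q => by unfold ori; ring
  constructor
  · by_contra h
    have h3 : ori d a b < 0 := lt_of_le_of_ne (not_lt.1 h) n1
    have f1 := ori_aff d a b b' x y hxy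
    have f2 := ori_aff d a a' a z w hzw
    rw [hP, f2, ori_self2, mul_zero, add_zero] at f1
    have f3 : x * ori d a b < 0 := mul_neg_of_pos_of_neg hx h3
    have f4 : y * ori d a b' < 0 := mul_neg_of_pos_of_neg hy t1
    have f5 : ori d a a' < 0 := by
      by_contra hc
      push Not at hc
      have := mul_nonneg hz.le hc
      linarith
    have g := ori_gp d e a b a'
    have g1 : 0 < ori d e a * ori d b a' := mul_pos ea t2
    have g2 : ori d e b * ori d a a' < 0 := mul_neg_of_pos_of_neg eb f5
    have g3 : 0 < ori d e a' * ori d a b := mul_pos_of_neg_of_neg ea' h3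
    linarith
  · by_contra h
    have h3 : ori d a' b' < 0 := lt_of_le_of_ne (not_lt.1 h) n2
    have f1 := ori_aff d a' b b' x y hxy
    have f2 := ori_aff d a' a' a z w hzw
    rw [hP, f2, ori_self2, mul_zero, zero_add] at f1
    have t3 : ori d a' b < 0 := by rw [sw b a']; linarith
    have f3 : x * ori d a' b < 0 := mul_neg_of_pos_of_neg hx t3
    have f4 : y * ori d a' b' < 0 := mul_neg_of_pos_of_neg hy h3
    have f5 : ori d a' a < 0 := by
      by_contra hc
      push Not at hc
      have := mul_nonneg hw.le hc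
      linarith
    have g := ori_gp d e a' b' a
    have t4 : 0 < ori d b' a := by rw [sw a b']; linarith
    have g1 : ori d e a' * ori d b' a < 0 := mul_neg_of_neg_of_pos ea' t4
    have g2 : 0 < ori d e b' * ori d a' a := mul_pos_of_neg_of_neg eb' f5
    have g3 : ori d e a * ori d a' b' < 0 := mul_neg_of_pos_of_neg ea h3
    linarith

theorem opp (hQuad : QuadStmt) (hCyc : CycStmt) : OppStmt := by
  intro V G C P hR d a b a' b' e hda hdb hda' hdb' hab hbb' hb'a' ha'a hab' hba' ea eb ea' eb'
  have hne1 : a ≠ b' := by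
    rintro rfl
    linarith
  have hne2 : b ≠ a' := by
    rintro rfl
    linarith
  have gp := hR.gp
  -- products from QUAD
  have q1 : 0 < ori (P a) (P b') (P b) * ori (P a) (P b') (P d) := by
    have hn := mul_ne_zero (gp.ori_ne hne1 hbb'.ne' hab.ne) (gp.ori_ne hne1 hdb'.ne' hda.ne')
    by_contra h
    have h1 := lt_of_le_of_ne (not_lt.1 h) hn
    exact hab' ((hR.adj_iff hne1).2 (hQuad C _ hR.amb _ (hR.mem a) _ (hR.mem b) _ (hR.mem b') _
      (hR.mem d) (hR.sees hab) (hR.sees hbb') (hR.sees hdb'.symm) (hR.sees hda) h1))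
  have q2 : 0 < ori (P b) (P a') (P a) * ori (P b) (P a') (P d) := by
    have hn := mul_ne_zero (gp.ori_ne hne2 ha'a.ne hab.ne') (gp.ori_ne hne2 hda'.ne' hdb.ne')
    by_contra h
    have h1 := lt_of_le_of_ne (not_lt.1 h) hn
    exact hba' ((hR.adj_iff hne2).2 (hQuad C _ hR.amb _ (hR.mem b) _ (hR.mem a) _ (hR.mem a') _
      (hR.mem d) (hR.sees hab.symm) (hR.sees ha'a.symm) (hR.sees hda'.symm) (hR.sees hdb) h1))
  have n1 : ori (P d) (P a) (P b) ≠ 0 := gp.ori_ne hda.ne hab.ne hdb.ne
  have n2 : ori (P d) (P a') (P b') ≠ 0 := gp.ori_ne hda'.ne hb'a'.ne' hdb'.ne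
  rcases hCyc V G C P hR a b b' a' hab hbb' hb'a' ha'a hne1 hne2 hab' hba' with hc | hc
  · -- the line separates
    exfalso
    obtain ⟨x, y, z, w, hx, hy, hz, hw, hxy, hzw, hP⟩ := cross_pt hc
    have f1 := ori_aff (P d) e (P a) (P b) x y hxy
    have f2 := ori_aff (P d) e (P b') (P a') z w hzw
    rw [hP, f2] at f1
    have g1 := mul_pos hx ea
    have g2 := mul_pos hy eb
    have g3 := mul_neg_of_pos_of_neg hz eb'
    have g4 := mul_neg_of_pos_of_neg hw ea'
    linarith
  · have n3 : ori (P b) (P b') (P a) ≠ 0 := gp.ori_ne hbb'.ne hne1.symm hab.ne'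
    rcases lt_or_gt_of_ne n3 with h3 | h3
    · -- exchange the two pairs
      have hc' : Cross (P a) (P a') (P b') (P b) := by
        obtain ⟨c1, c2⟩ := hc
        constructor
        · have e1 : ori (P a) (P a') (P b') = -ori (P a') (P a) (P b') := by unfold ori; ring
          have e2 : ori (P a) (P a') (P b) = -ori (P a') (P a) (P b) := by unfold ori; ring
          rw [e1, e2]
          linarith
        · have e1 : ori (P b') (P b) (P a) = -ori (P b) (P b') (P a) := by unfold ori; ring
          have e2 : ori (P b') (P b) (P a') = -ori (P b) (P b') (P a') := by unfold ori; ring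
          rw [e1, e2]
          linarith
      have hs : 0 < ori (P a) (P a') (P b) := by
        obtain ⟨c1, c2⟩ := hc
        have s1 : 0 < ori (P b) (P b') (P a') := by
          by_contra h
          push Not at h
          have := mul_nonneg_of_nonpos_of_nonpos h h3.le
          linarith
        have h4 := ori_four (P a') (P a) (P b) (P b')
        have e2 : ori (P a') (P b) (P b') = ori (P b) (P b') (P a') := by unfold ori; ring
        have e3 : ori (P a) (P b) (P b') = ori (P b) (P b') (P a) := by unfold ori; ring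
        have e4 : ori (P a) (P a') (P b) = -ori (P a') (P a) (P b) := by unfold ori; ring
        rw [e4]
        by_contra h
        push Not at h
        have h5 : 0 < ori (P a') (P a) (P b') := by linarith
        have h6 : 0 ≤ ori (P a') (P a) (P b) := by linarith
        have := mul_nonneg h6 h5.le
        linarith
      have n1' : ori (P d) (P b) (P a) ≠ 0 := gp.ori_ne hdb.ne hab.ne' hda.ne
      have n2' : ori (P d) (P b') (P a') ≠ 0 := gp.ori_ne hdb'.ne hb'a'.ne hda'.ne
      obtain ⟨r1, r2⟩ := opp_core (e := e) hc' q2 q1 eb ea eb' ea' hs n1' n2'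
      have e1 : ori (P d) (P a) (P b) = -ori (P d) (P b) (P a) := by unfold ori; ring
      have e2 : ori (P d) (P a') (P b') = -ori (P d) (P b') (P a') := by unfold ori; ring
      rw [e1, e2]
      have := mul_pos r1 r2
      linarith
    · obtain ⟨r1, r2⟩ := opp_core (e := e) hc q1 q2 ea eb ea' eb' h3 n1 n2
      exact mul_pos r1 r2

end Pool.Agent.SO.H76
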