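import Pool.Agent.Helper76_SO.Opp

/-!
# Module SAME
-/

namespace Pool.Agent.SO.H76

open Pool.Agent.SO

set_option linter.unusedVariables false

/-! ### Combinatorics -/

/-- the constraints on the positions -/
structure Cons (f f' : Fin 5 → ℝ) : Prop where
  nest : ∀ i k, i ≠ k → ¬ (f i < f k ∧ f k < f' k ∧ f' k < f' i)
  cros : ∀ i k, i ≠ k → ¬ (f i < f k ∧ f k < f' i ∧ f' i < f' k)
  nest' : ∀ i k, i ≠ k → ¬ (f' i < f' k ∧ f' k < f k ∧ f k < f i)
  cros' : ∀ i k, i ≠ k → ¬ (f' i < f' k ∧ f' k < f i ∧ f i < f k)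
  pat : ∀ a b c d, b ≠ c → a ≠ d → ¬ (f a < f' b ∧ f' b < f c ∧ f c < f' d)
  pat' : ∀ a b c d, b ≠ c → a ≠ d → ¬ (f' a < f b ∧ f b < f' c ∧ f' c < f d)
  inj : Function.Injective f
  inj' : Function.Injective f'
  ne : ∀ i k, f i ≠ f' k

theorem Cons.symm {f f' : Fin 5 → ℝ} (h : Cons f f') : Cons f' f :=
  ⟨h.nest', h.cros', h.nest, h.cros, h.pat', h.pat, h.inj', h.inj, fun i k => (h.ne k i).symm⟩

/-- sorted enumeration of a finite set of indices -/
theorem sorted {f : Fin 5 → ℝ} (hf : Function.Injective f) (s : Finset (Fin 5)) {k : ℕ}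
    (hk : k ≤ s.card) : ∃ g : Fin k → Fin 5, (∀ a, g a ∈ s) ∧ ∀ a b, a < b → f (g a) < f (g b) := by
  obtain ⟨t, hts, htk⟩ := Finset.exists_subset_card_eq hk
  have hc : (t.image f).card = k := by rw [Finset.card_image_of_injective _ hf, htk]
  have hm : ∀ a, ∃ i ∈ t, f i = (t.image f).orderEmbOfFin hc a := by
    intro a
    have := Finset.orderEmbOfFin_mem (t.image f) hc a
    rw [Finset.mem_image] at this
    obtain ⟨i, hi, h⟩ := this
    exact ⟨i, hi, h⟩
  choose g hg1 hg2 using hm
  refine ⟨g, fun a => hts (hg1 a), fun a b hab => ?_⟩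
  rw [hg2, hg2]
  exact ((t.image f).orderEmbOfFin hc).strictMono hab

/-- positive intervals are disjoint -/
theorem Cons.disj {f f' : Fin 5 → ℝ} (h : Cons f f') {i k : Fin 5}
    (hk : f k < f' k) (hik : f i < f k) : f' i < f k := by
  have hne : i ≠ k := by rintro rfl; exact lt_irrefl _ hik
  by_contra hc
  have h1 : f k < f' i := lt_of_le_of_ne (not_lt.1 hc) (h.ne k i)
  rcases lt_trichotomy (f' i) (f' k) with h2 | h2 | h2
  · exact h.cros i k hne ⟨hik, h1, h2⟩
  · exact hne (h.inj' h2)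
  · exact h.nest i k hne ⟨hik, hk, h2⟩

theorem comb_pos {f f' : Fin 5 → ℝ} (h : Cons f f')
    (hp : 3 ≤ (Finset.univ.filter fun i => f i < f' i).card) : False := by
  by_cases h4 : 4 ≤ (Finset.univ.filter fun i => f i < f' i).card
  · obtain ⟨g, hg1, hg2⟩ := sorted h.inj _ h4
    have hp : ∀ a, f (g a) < f' (g a) := fun a => (Finset.mem_filter.1 (hg1 a)).2
    have hne : ∀ a b, a ≠ b → g a ≠ g b := by
      intro a b hab heq
      rcases lt_or_gt_of_ne hab with h1 | h1
      · have := hg2 a b h1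
        rw [heq] at this
        exact lt_irrefl _ this
      · have := hg2 b a h1
        rw [heq] at this
        exact lt_irrefl _ this
    have e1 : f (g 0) < f (g 1) := hg2 0 1 (by decide)
    have e2 : f (g 1) < f (g 2) := hg2 1 2 (by decide)
    have e3 : f (g 2) < f (g 3) := hg2 2 3 (by decide)
    exact h.pat (g 0) (g 1) (g 2) (g 3) (hne _ _ (by decide)) (hne _ _ (by decide))
      ⟨e1.trans (hp 1), h.disj (hp 2) e2, e3.trans (hp 3)⟩
  · -- three positive, two negative
    have hneg : 2 ≤ (Finset.univ.filter fun i => f' i < f i).card := by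
      have h1 : (Finset.univ.filter fun i => f i < f' i).card +
          (Finset.univ.filter fun i => f' i < f i).card = 5 := by
        rw [← Finset.card_union_of_disjoint]
        · have : (Finset.univ.filter fun i => f i < f' i) ∪
              (Finset.univ.filter fun i => f' i < f i) = Finset.univ := by
            ext i
            simp only [Finset.mem_union, Finset.mem_filter, Finset.mem_univ, true_and, iff_true]
            exact lt_or_gt_of_ne (h.ne i i)
          rw [this]
          simp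
        · rw [Finset.disjoint_filter]
          intro i _ h1 h2
          exact lt_asymm h1 h2
      omega
    obtain ⟨g, hg1, hg2⟩ := sorted h.inj _ hp
    obtain ⟨k, hk1, hk2⟩ := sorted h.inj' _ hneg
    have hp : ∀ a, f (g a) < f' (g a) := fun a => (Finset.mem_filter.1 (hg1 a)).2
    have hn : ∀ a, f' (k a) < f (k a) := fun a => (Finset.mem_filter.1 (hk1 a)).2
    have hgk : ∀ a b, g a ≠ k b := by
      intro a b heq
      have h1 := hp a
      rw [heq] at h1
      exact lt_asymm h1 (hn b)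
    have hne : ∀ a b, a ≠ b → g a ≠ g b := by
      intro a b hab heq
      rcases lt_or_gt_of_ne hab with h1 | h1
      · have := hg2 a b h1
        rw [heq] at this
        exact lt_irrefl _ this
      · have := hg2 b a h1
        rw [heq] at this
        exact lt_irrefl _ this
    have e1 : f (g 0) < f (g 1) := hg2 0 1 (by decide)
    have e2 : f (g 1) < f (g 2) := hg2 1 2 (by decide)
    have d1 : f' (g 0) < f (g 1) := h.disj (hp 1) e1
    have d2 : f' (g 1) < f (g 2) := h.disj (hp 2) e2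
    have k1 : f' (k 0) < f' (k 1) := hk2 0 1 (by decide)
    have k2 : f (k 0) < f' (k 1) := h.symm.disj (hn 1) k1
    have hkne : k 0 ≠ k 1 := by
      intro heq
      rw [heq] at k1
      exact lt_irrefl _ k1
    have s1 : f' (k 1) < f (g 2) := by
      by_contra hc
      have h1 := lt_of_le_of_ne (not_lt.1 hc) (h.ne _ _)
      exact h.pat (g 0) (g 1) (g 2) (k 1) (hne _ _ (by decide)) (hgk _ _)
        ⟨e1.trans (hp 1), d2, h1⟩
    have s2 : f' (g 0) < f (k 0) := by
      by_contra hc
      have h1 := lt_of_le_of_ne (not_lt.1 hc) (h.ne _ _)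
      exact h.pat (k 0) (g 0) (g 1) (g 2) (hne _ _ (by decide)) (hgk _ _).symm
        ⟨h1, d1, e2.trans (hp 2)⟩
    exact h.pat' (g 0) (k 0) (k 1) (g 2) hkne (hne _ _ (by decide)) ⟨s2, k2, s1⟩

theorem comb {f f' : Fin 5 → ℝ} (h : Cons f f') : False := by
  have h1 : (Finset.univ.filter fun i => f i < f' i).card +
      (Finset.univ.filter fun i => f' i < f i).card = 5 := by
    rw [← Finset.card_union_of_disjoint]
    · have : (Finset.univ.filter fun i => f i < f' i) ∪
          (Finset.univ.filter fun i => f' i < f i) = Finset.univ := by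
        ext i
        simp only [Finset.mem_union, Finset.mem_filter, Finset.mem_univ, true_and, iff_true]
        exact lt_or_gt_of_ne (h.ne i i)
      rw [this]
      simp
    · rw [Finset.disjoint_filter]
      intro i _ h1 h2
      exact lt_asymm h1 h2
  by_cases h3 : 3 ≤ (Finset.univ.filter fun i => f i < f' i).card
  · exact comb_pos h h3
  · exact comb_pos h.symm (by omega)

/-! ### Positions -/

/-- position of a point in the angular order at `d` -/
noncomputable def pos (d e p : Pt) : ℝ :=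
  -((e.1 - d.1) * (p.1 - d.1) + (e.2 - d.2) * (p.2 - d.2)) / ori d e p

theorem pos_lt {d e p q : Pt} (hp : 0 < ori d e p) (hq : 0 < ori d e q) :
    0 < ori d p q ↔ pos d e p < pos d e q := by
  have hne : 0 < (e.1 - d.1) ^ 2 + (e.2 - d.2) ^ 2 := by
    by_contra h
    have h1 : e.1 - d.1 = 0 := by nlinarith [sq_nonneg (e.1 - d.1), sq_nonneg (e.2 - d.2)]
    have h2 : e.2 - d.2 = 0 := by nlinarith [sq_nonneg (e.1 - d.1), sq_nonneg (e.2 - d.2)]
    unfold ori at hp
    rw [h1, h2] at hp
    linarith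
  unfold pos
  rw [div_lt_div_iff₀ hp hq]
  have key : ((e.1 - d.1) ^ 2 + (e.2 - d.2) ^ 2) * ori d p q =
      -((e.1 - d.1) * (q.1 - d.1) + (e.2 - d.2) * (q.2 - d.2)) * ori d e p -
      -((e.1 - d.1) * (p.1 - d.1) + (e.2 - d.2) * (p.2 - d.2)) * ori d e q := by
    unfold ori
    ring
  constructor
  · intro h
    have := mul_pos hne h
    linarith
  · intro h
    have h1 : 0 < ((e.1 - d.1) ^ 2 + (e.2 - d.2) ^ 2) * ori d p q := by linarith
    exact (pos_iff_pos_of_mul_pos h1).1 hne

/-! ### Geometry -/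

section Geo

variable {V : Type} {G : SimpleGraph V} {C : Set Pt} {P : V → Pt}

/-- points of a visible triangle see each other -/
theorem sees_of_tri (hTri : TriStmt) (hR : Rep C G P) {d a b : V} (hda : G.Adj d a)
    (hdb : G.Adj d b) (hab : G.Adj a b) {p q : Pt} (hp : p ∈ convexHull ℝ ({P d, P a, P b} : Set Pt))
    (hq : q ∈ convexHull ℝ ({P d, P a, P b} : Set Pt)) : Sees C p q := by
  have h := hTri C _ hR.amb _ (hR.mem d) _ (hR.mem a) _ (hR.mem b) (hR.sees hda) (hR.sees hab)
    (hR.sees hdb)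
  unfold Sees
  rw [Set.eq_empty_iff_forall_notMem]
  rintro z ⟨hz1, hz2⟩
  have h1 : z ∈ convexHull ℝ ({P d, P a, P b} : Set Pt) :=
    (convex_convexHull ℝ _).segment_subset hp hq hz1
  have h2 : z ∈ convexHull ℝ ({P d, P a, P b} : Set Pt) ∩ C := ⟨h1, hz2⟩
  rw [h] at h2
  exact h2

theorem sees_sub {p q r : Pt} (h : Sees C p q) (hr : r ∈ segment ℝ p q) : Sees C p r := by
  unfold Sees at *
  rw [Set.eq_empty_iff_forall_notMem] at *
  rintro z ⟨hz1, hz2⟩
  exact h z ⟨(convex_segment p q).segment_subset (left_mem_segment ℝ p q) hr hz1, hz2⟩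

/-- LEMMA X -/
theorem lemX (hTri : TriStmt) (hQuad : QuadStmt) (hR : Rep C G P) {d p1 p2 p3 p4 : V}
    (h1 : G.Adj d p1) (h2 : G.Adj d p2) (h3 : G.Adj d p3) (h4 : G.Adj d p4)
    (o12 : 0 < ori (P d) (P p1) (P p2)) (o23 : 0 < ori (P d) (P p2) (P p3))
    (o34 : 0 < ori (P d) (P p3) (P p4)) (o13 : 0 < ori (P d) (P p1) (P p3))
    (o24 : 0 < ori (P d) (P p2) (P p4)) (o14 : 0 < ori (P d) (P p1) (P p4))
    (a13 : G.Adj p1 p3) (a24 : G.Adj p2 p4) (n23 : ¬ G.Adj p2 p3) : G.Adj p1 p4 := by
  have gp := hR.gp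
  have ne : ∀ {p q : V}, 0 < ori (P d) (P p) (P q) → p ≠ q := by
    rintro p q h rfl
    rw [ori_self2] at h
    exact lt_irrefl _ h
  have t123 : 0 < ori (P p1) (P p2) (P p3) := by
    by_contra h
    have h5 := lt_of_le_of_ne (not_lt.1 h) (gp.ori_ne (ne o12) (ne o23) (ne o13))
    have hm : P p2 ∈ convexHull ℝ ({P d, P p1, P p3} : Set Pt) := by
      refine mem_triangle o12 ?_ ?_
      · have : ori (P p1) (P p3) (P p2) = -ori (P p1) (P p2) (P p3) := by unfold ori; ring
        rw [this]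
        linarith
      · have : ori (P p3) (P d) (P p2) = ori (P d) (P p2) (P p3) := by unfold ori; ring
        rw [this]
        exact o23
    have hm3 : P p3 ∈ convexHull ℝ ({P d, P p1, P p3} : Set Pt) :=
      subset_convexHull ℝ _ (by simp)
    exact n23 ((hR.adj_iff (ne o23)).2 (sees_of_tri hTri hR h1 h3 a13 hm hm3))
  have t234 : 0 < ori (P p2) (P p3) (P p4) := by
    by_contra h
    have h5 := lt_of_le_of_ne (not_lt.1 h) (gp.ori_ne (ne o23) (ne o34) (ne o24))
    have hm : P p3 ∈ convexHull ℝ ({P d, P p2, P p4} : Set Pt) := by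
      refine mem_triangle o23 ?_ ?_
      · have : ori (P p2) (P p4) (P p3) = -ori (P p2) (P p3) (P p4) := by unfold ori; ring
        rw [this]
        linarith
      · have : ori (P p4) (P d) (P p3) = ori (P d) (P p3) (P p4) := by unfold ori; ring
        rw [this]
        exact o34
    have hm3 : P p2 ∈ convexHull ℝ ({P d, P p2, P p4} : Set Pt) :=
      subset_convexHull ℝ _ (by simp)
    exact n23 ((hR.adj_iff (ne o23)).2 (sees_of_tri hTri hR h2 h4 a24 hm3 hm))
  have t124 : 0 < ori (P p1) (P p2) (P p4) := by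
    have g := ori_gp (P p2) (P d) (P p1) (P p3) (P p4)
    have e1 : ori (P p2) (P d) (P p1) = ori (P d) (P p1) (P p2) := by unfold ori; ring
    have e2 : ori (P p2) (P d) (P p3) = -ori (P d) (P p2) (P p3) := by unfold ori; ring
    have e3 : ori (P p2) (P d) (P p4) = -ori (P d) (P p2) (P p4) := by unfold ori; ring
    have e4 : ori (P p2) (P p1) (P p3) = -ori (P p1) (P p2) (P p3) := by unfold ori; ring
    have e5 : ori (P p2) (P p1) (P p4) = -ori (P p1) (P p2) (P p4) := by unfold ori; ring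
    rw [e1, e2, e3, e4, e5] at g
    have g1 := mul_pos o12 t234
    have g2 := mul_pos o24 t123
    have g3 : 0 < ori (P d) (P p2) (P p3) * ori (P p1) (P p2) (P p4) := by linarith
    exact (pos_iff_pos_of_mul_pos g3).1 o23
  have t134 : 0 < ori (P p1) (P p3) (P p4) := by
    have g := ori_gp (P p3) (P d) (P p4) (P p1) (P p2)
    have e1 : ori (P p3) (P d) (P p4) = -ori (P d) (P p3) (P p4) := by unfold ori; ring
    have e2 : ori (P p3) (P p1) (P p2) = ori (P p1) (P p2) (P p3) := by unfold ori; ring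
    have e3 : ori (P p3) (P d) (P p1) = ori (P d) (P p1) (P p3) := by unfold ori; ring
    have e4 : ori (P p3) (P p4) (P p2) = ori (P p2) (P p3) (P p4) := by unfold ori; ring
    have e5 : ori (P p3) (P d) (P p2) = ori (P d) (P p2) (P p3) := by unfold ori; ring
    have e6 : ori (P p3) (P p4) (P p1) = ori (P p1) (P p3) (P p4) := by unfold ori; ring
    rw [e1, e2, e3, e4, e5, e6] at g
    have g1 := mul_pos o34 t123
    have g2 := mul_pos o13 t234
    have g3 : 0 < ori (P d) (P p2) (P p3) * ori (P p1) (P p3) (P p4) := by linarith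
    exact (pos_iff_pos_of_mul_pos g3).1 o23
  have hc : Cross (P p1) (P p3) (P p2) (P p4) := by
    constructor
    · have : ori (P p1) (P p3) (P p2) = -ori (P p1) (P p2) (P p3) := by unfold ori; ring
      rw [this]
      have := mul_pos t123 t134
      linarith
    · have e1 : ori (P p2) (P p4) (P p1) = ori (P p1) (P p2) (P p4) := by unfold ori; ring
      have e2 : ori (P p2) (P p4) (P p3) = -ori (P p2) (P p3) (P p4) := by unfold ori; ring
      rw [e1, e2]
      have := mul_pos t124 t234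
      linarith
  obtain ⟨x, y, z, w, hx, hy, hz, hw, hxy, hzw, hP⟩ := cross_pt hc
  set c := x • P p1 + y • P p3 with hcd
  have hc1 : c ∈ segment ℝ (P p1) (P p3) := ⟨x, y, hx.le, hy.le, hxy, rfl⟩
  have hc2 : c ∈ segment ℝ (P p2) (P p4) := ⟨z, w, hz.le, hw.le, hzw, hP.symm⟩
  have hcK : c ∈ convexHull ℝ (Set.range P) :=
    (convex_convexHull ℝ _).segment_subset (hR.mem p1) (hR.mem p3) hc1
  have s1 : Sees C (P p1) c := sees_sub (hR.sees a13) hc1
  have s2 : Sees C c (P p4) := by
    have : c ∈ segment ℝ (P p4) (P p2) := by rw [segment_symm]; exact hc2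
    exact (sees_sub (hR.sees a24.symm) this).symm
  have hq : ori (P p1) (P p4) c * ori (P p1) (P p4) (P d) < 0 := by
    have f1 := ori_aff (P p1) (P p4) (P p1) (P p3) x y hxy
    rw [ori_self3, mul_zero, zero_add] at f1
    have e1 : ori (P p1) (P p4) (P p3) = -ori (P p1) (P p3) (P p4) := by unfold ori; ring
    have e2 : ori (P p1) (P p4) (P d) = ori (P d) (P p1) (P p4) := by unfold ori; ring
    rw [hcd, f1, e1, e2]
    have := mul_pos (mul_pos hy t134) o14
    linarith
  exact (hR.adj_iff (ne o14)).2 (hQuad C _ hR.amb _ (hR.mem p1) _ hcK _ (hR.mem p4) _ (hR.mem d)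
    s1 s2 (hR.sees h4.symm) (hR.sees h1) hq)

/-- LEMMA Y -/
theorem lemY (hTri : TriStmt) (hCyc : CycStmt) (hR : Rep C G P) {d p1 p2 p3 p4 : V}
    (h1 : G.Adj d p1) (h2 : G.Adj d p2) (h3 : G.Adj d p3) (h4 : G.Adj d p4)
    (o12 : 0 < ori (P d) (P p1) (P p2)) (o23 : 0 < ori (P d) (P p2) (P p3))
    (o34 : 0 < ori (P d) (P p3) (P p4)) (o13 : 0 < ori (P d) (P p1) (P p3))
    (o24 : 0 < ori (P d) (P p2) (P p4)) (o14 : 0 < ori (P d) (P p1) (P p4))
    (a12 : G.Adj p1 p2) (a23 : G.Adj p2 p3) (a34 : G.Adj p3 p4) (a41 : G.Adj p4 p1)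
    (n13 : ¬ G.Adj p1 p3) (n24 : ¬ G.Adj p2 p4) : False := by
  have ne : ∀ {p q : V}, 0 < ori (P d) (P p) (P q) → p ≠ q := by
    rintro p q h rfl
    rw [ori_self2] at h
    exact lt_irrefl _ h
  rcases hCyc V G C P hR p1 p2 p3 p4 a12 a23 a34 a41 (ne o13) (ne o24) n13 n24 with hc | hc
  · obtain ⟨x, y, z, w, hx, hy, hz, hw, hxy, hzw, hP⟩ := cross_pt hc
    have f1 := ori_aff (P d) (P p3) (P p1) (P p2) x y hxy
    have f2 := ori_aff (P d) (P p3) (P p3) (P p4) z w hzw
    rw [hP, f2, ori_self2, mul_zero, zero_add] at f1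
    have e1 : ori (P d) (P p3) (P p1) = -ori (P d) (P p1) (P p3) := by unfold ori; ring
    have e2 : ori (P d) (P p3) (P p2) = -ori (P d) (P p2) (P p3) := by unfold ori; ring
    rw [e1, e2] at f1
    have g1 := mul_pos hx o13
    have g2 := mul_pos hy o23
    have g3 := mul_pos hw o34
    linarith
  · obtain ⟨c1, c2⟩ := hc
    have m1 : P p1 ∈ convexHull ℝ ({P d, P p1, P p4} : Set Pt) := subset_convexHull ℝ _ (by simp)
    have m4 : P p4 ∈ convexHull ℝ ({P d, P p1, P p4} : Set Pt) := subset_convexHull ℝ _ (by simp)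
    rcases mul_neg_iff.1 c2 with ⟨s1, s2⟩ | ⟨s1, s2⟩
    · have hm : P p3 ∈ convexHull ℝ ({P d, P p1, P p4} : Set Pt) := by
        refine mem_triangle o13 ?_ ?_
        · have : ori (P p1) (P p4) (P p3) = -ori (P p4) (P p1) (P p3) := by unfold ori; ring
          rw [this]
          linarith
        · have : ori (P p4) (P d) (P p3) = ori (P d) (P p3) (P p4) := by unfold ori; ring
          rw [this]
          exact o34
      exact n13 ((hR.adj_iff (ne o13)).2 (sees_of_tri hTri hR h1 h4 a41.symm m1 hm))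
    · have hm : P p2 ∈ convexHull ℝ ({P d, P p1, P p4} : Set Pt) := by
        refine mem_triangle o12 ?_ ?_
        · have : ori (P p1) (P p4) (P p2) = -ori (P p4) (P p1) (P p2) := by unfold ori; ring
          rw [this]
          linarith
        · have : ori (P p4) (P d) (P p2) = ori (P d) (P p2) (P p4) := by unfold ori; ring
          rw [this]
          exact o24
      exact n24 ((hR.adj_iff (ne o24)).2 (sees_of_tri hTri hR h1 h4 a41.symm hm m4))

end Geo

theorem same (hTri : TriStmt) (hQuad : QuadStmt) (hCyc : CycStmt) : SameStmt := by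
  intro V G C P hR d e x x' hdx hdx' hxx hxx' hm hn ex ex'
  have gp := hR.gp
  -- the ten points are different
  have hne : ∀ i k, x i ≠ x' k := by
    intro i k heq
    by_cases hik : i = k
    · subst hik
      exact (hm i).ne heq
    · have hall : ∀ i k : Fin 5, ∃ j : Fin 5, j ≠ i ∧ j ≠ k := by decide
      obtain ⟨j, hj1, hj2⟩ := hall i k
      have := hxx j i hj1
      rw [heq] at this
      exact hn j k hj2 this
  have xinj : Function.Injective x := fun i k h => by
    by_contra hc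
    exact (hxx i k hc).ne h
  have xinj' : Function.Injective x' := fun i k h => by
    by_contra hc
    exact (hxx' i k hc).ne h
  let f : Fin 5 → ℝ := fun i => pos (P d) e (P (x i))
  let f' : Fin 5 → ℝ := fun i => pos (P d) e (P (x' i))
  -- positions of different vertices are different
  have pne : ∀ {u v : V}, G.Adj d u → G.Adj d v → u ≠ v → 0 < ori (P d) e (P u) →
      0 < ori (P d) e (P v) → pos (P d) e (P u) ≠ pos (P d) e (P v) := by
    intro u v hu hv huv pu pv heq
    have h1 : ori (P d) (P u) (P v) ≠ 0 := gp.ori_ne hu.ne huv hv.ne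
    rcases lt_or_gt_of_ne h1 with h2 | h2
    · have h3 : 0 < ori (P d) (P v) (P u) := by
        have : ori (P d) (P v) (P u) = -ori (P d) (P u) (P v) := by unfold ori; ring
        rw [this]
        linarith
      have := (pos_lt pv pu).1 h3
      rw [heq] at this
      exact lt_irrefl _ this
    · have := (pos_lt pu pv).1 h2
      rw [heq] at this
      exact lt_irrefl _ this
  -- crossing and nesting lemmas in terms of positions
  have X : ∀ {p1 p2 p3 p4 : V}, G.Adj d p1 → G.Adj d p2 → G.Adj d p3 → G.Adj d p4 →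
      0 < ori (P d) e (P p1) → 0 < ori (P d) e (P p2) → 0 < ori (P d) e (P p3) →
      0 < ori (P d) e (P p4) → pos (P d) e (P p1) < pos (P d) e (P p2) →
      pos (P d) e (P p2) < pos (P d) e (P p3) → pos (P d) e (P p3) < pos (P d) e (P p4) →
      G.Adj p1 p3 → G.Adj p2 p4 → ¬ G.Adj p2 p3 → G.Adj p1 p4 := by
    intro p1 p2 p3 p4 h1 h2 h3 h4 e1 e2 e3 e4 l1 l2 l3 a b c
    exact lemX hTri hQuad hR h1 h2 h3 h4 ((pos_lt e1 e2).2 l1) ((pos_lt e2 e3).2 l2)
      ((pos_lt e3 e4).2 l3) ((pos_lt e1 e3).2 (l1.trans l2)) ((pos_lt e2 e4).2 (l2.trans l3))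
      ((pos_lt e1 e4).2 (l1.trans (l2.trans l3))) a b c
  have Y : ∀ {p1 p2 p3 p4 : V}, G.Adj d p1 → G.Adj d p2 → G.Adj d p3 → G.Adj d p4 →
      0 < ori (P d) e (P p1) → 0 < ori (P d) e (P p2) → 0 < ori (P d) e (P p3) →
      0 < ori (P d) e (P p4) → pos (P d) e (P p1) < pos (P d) e (P p2) →
      pos (P d) e (P p2) < pos (P d) e (P p3) → pos (P d) e (P p3) < pos (P d) e (P p4) →
      G.Adj p1 p2 → G.Adj p2 p3 → G.Adj p3 p4 → G.Adj p4 p1 → ¬ G.Adj p1 p3 →
      ¬ G.Adj p2 p4 → False := by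
    intro p1 p2 p3 p4 h1 h2 h3 h4 e1 e2 e3 e4 l1 l2 l3 a b c a' b' c'
    exact lemY hTri hCyc hR h1 h2 h3 h4 ((pos_lt e1 e2).2 l1) ((pos_lt e2 e3).2 l2)
      ((pos_lt e3 e4).2 l3) ((pos_lt e1 e3).2 (l1.trans l2)) ((pos_lt e2 e4).2 (l2.trans l3))
      ((pos_lt e1 e4).2 (l1.trans (l2.trans l3))) a b c a' b' c'
  have ns : ∀ i k, i ≠ k → ¬ G.Adj (x' k) (x i) := fun i k h h' => hn i k h h'.symm
  have cons : Cons f f' := by
    refine ⟨?_, ?_, ?_, ?_, ?_, ?_, ?_, ?_, ?_⟩
    · rintro i k hik ⟨l1, l2, l3⟩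
      exact Y (hdx i) (hdx k) (hdx' k) (hdx' i) (ex i) (ex k) (ex' k) (ex' i) l1 l2 l3
        (hxx i k hik) (hm k) (hxx' k i hik.symm) (hm i).symm (hn i k hik) (hn k i hik.symm)
    · rintro i k hik ⟨l1, l2, l3⟩
      exact hn i k hik (X (hdx i) (hdx k) (hdx' i) (hdx' k) (ex i) (ex k) (ex' i) (ex' k) l1 l2 l3
        (hm i) (hm k) (hn k i hik.symm))
    · rintro i k hik ⟨l1, l2, l3⟩
      exact Y (hdx' i) (hdx' k) (hdx k) (hdx i) (ex' i) (ex' k) (ex k) (ex i) l1 l2 l3
        (hxx' i k hik) (hm k).symm (hxx k i hik.symm) (hm i) (ns k i hik.symm) (ns i k hik)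
    · rintro i k hik ⟨l1, l2, l3⟩
      exact ns k i hik.symm (X (hdx' i) (hdx' k) (hdx i) (hdx k) (ex' i) (ex' k) (ex i) (ex k)
        l1 l2 l3 (hm i).symm (hm k).symm (ns i k hik))
    · rintro a b c g hbc hag ⟨l1, l2, l3⟩
      have hac : a ≠ c := by
        rintro rfl
        exact lt_asymm l1 l2
      have hbg : b ≠ g := by
        rintro rfl
        exact lt_asymm l2 l3
      exact hn a g hag (X (hdx a) (hdx' b) (hdx c) (hdx' g) (ex a) (ex' b) (ex c) (ex' g) l1 l2 l3
        (hxx a c hac) (hxx' b g hbg) (ns c b hbc.symm))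
    · rintro a b c g hbc hag ⟨l1, l2, l3⟩
      have hac : a ≠ c := by
        rintro rfl
        exact lt_asymm l1 l2
      have hbg : b ≠ g := by
        rintro rfl
        exact lt_asymm l2 l3
      exact ns g a hag.symm (X (hdx' a) (hdx b) (hdx' c) (hdx g) (ex' a) (ex b) (ex' c) (ex g)
        l1 l2 l3 (hxx' a c hac) (hxx b g hbg) (hn b c hbc))
    · intro i k h
      by_contra hc
      exact pne (hdx i) (hdx k) (fun h => hc (xinj h)) (ex i) (ex k) h
    · intro i k h
      by_contra hc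
      exact pne (hdx' i) (hdx' k) (fun h => hc (xinj' h)) (ex' i) (ex' k) h
    · intro i k
      exact pne (hdx i) (hdx' k) (hne i k) (ex i) (ex' k)
  exact comb cons

end Pool.Agent.SO.H76
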